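import Pool.Agent.H47.CD.Cor
import Mathlib.Data.ZMod.Basic

/-!
# Tree languages, thickening, periodic tails

Tools for `MP_7de2ad_al.VirtuallyAbelian`.
-/

namespace Pool.Agent.H47.VA

open Pool.Agent.H47.CD

universe u v w

variable {G : Type u} [Group G] {A : Type v}

/-- a regular prefix-closed language with different values and fellow travellers -/
structure Tree (ev : A → G) (T : Language A) : Prop where
  regular : T.IsRegular
  closed : PrefixClosed T
  inj : ∀ u ∈ T, ∀ v ∈ T, value ev u = value ev v → u = v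
  ft : ∀ g : G, FT ev T g

theorem Tree.mult {ev : A → G} {T : Language A} (hT : Tree ev T) (g : G) :
    (multiplier ev T g).IsRegular := regular_of_FT ev T hT.regular g (hT.ft g)

/-- pairs of words of `T` with short tails -/
theorem FT_tails [Finite A] (ev : A → G) (T : Language A) (hT : ∀ g : G, FT ev T g) (K : ℕ)
    (h : G) : ∃ D : Set G, D.Finite ∧ ∀ w ∈ T, ∀ w' ∈ T, ∀ z z' : List A, z.length ≤ K →
      z'.length ≤ K → value ev (w ++ z) * h = value ev (w' ++ z') →
      ∀ i : ℕ, (value ev ((w ++ z).take i))⁻¹ * value ev ((w' ++ z').take i) ∈ D := by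
  classical
  have hfin : Set.Finite {z : List A | z.length ≤ K} := List.finite_length_le A K
  choose D hD hD' using hT
  set Z : Set G := (value ev) '' {z : List A | z.length ≤ K} with hZ
  have hZfin : Z.Finite := hfin.image _
  set E : Set G := ⋃ p ∈ Set.image2 (fun x y => x * h * y⁻¹) Z Z, D p with hE
  have hEfin : E.Finite := (hZfin.image2 _ hZfin).biUnion (fun p _ => hD p)
  refine ⟨Set.image2 (fun x y => x * y) (Set.image2 (fun x y => x⁻¹ * y) Z E) Z,
    (hZfin.image2 _ hEfin).image2 _ hZfin, ?_⟩
  intro w hw w' hw' z z' hz hz' huv i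
  have h1 : value ev w * (value ev z * h * (value ev z')⁻¹) = value ev w' := by
    rw [value_append, value_append] at huv
    rw [← mul_assoc, ← mul_assoc, huv]
    group
  have h2 := hD' _ w hw w' hw' h1 i
  rw [List.take_append, List.take_append, value_append, value_append]
  refine ⟨(value ev (z.take (i - w.length)))⁻¹ * ((value ev (w.take i))⁻¹ *
    value ev (w'.take i)), ⟨_, ⟨z.take (i - w.length), ?_, rfl⟩, _, ?_, rfl⟩,
    value ev (z'.take (i - w'.length)), ⟨z'.take (i - w'.length), ?_, rfl⟩, ?_⟩
  · exact (List.length_take_le' _ _).trans hz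
  · exact Set.mem_biUnion ⟨_, ⟨z, hz, rfl⟩, _, ⟨z', hz', rfl⟩, rfl⟩ h2
  · exact (List.length_take_le' _ _).trans hz'
  · simp only
    group

/-- Thickening: the elements within `K` letters of a tree form a tree. -/
theorem thicken [Finite A] (ev : A → G) (L : Language A) (hT : Tree ev L) (K : ℕ) :
    ∃ T : Language A, Tree ev T ∧ (∀ w ∈ L, w ∈ T) ∧ ∀ g, Im ev T g ↔ Near ev L K g := by
  classical
  have hL := hT.regular
  have hm := hT.mult
  obtain ⟨n, ⟨e⟩⟩ := Finite.exists_equiv_fin A
  set f : A → ℕ := fun a => (e a : ℕ) with hfdef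
  have hf : Function.Injective f := fun a b hab => e.injective (Fin.ext hab)
  set T : Language A := {w | ∃ j ≤ K, Ext ev L f j w} with hTdef
  have hTreg : T.IsRegular := by
    refine isRegular_bool (ι := Fin (K + 1)) (fun j => {w | Ext ev L f j w}) ?_
      (fun p => ∃ i, p i) T ?_
    · intro j
      have h1 : Reg ev L (fun _ => True) := by
        intro h
        have h0 : ({w | w ∈ L ∧ True} : Language A) = L := by
          ext w
          exact and_iff_left trivial
        exact h0.symm ▸ hL
      have h2 := Reg_Ext ev L hL hm f j _ h1 1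
      have h3 : ({w | w ∈ ({w | Ext ev L f j w} : Language A) ∧ True} : Language A) =
          {w | Ext ev L f j w} := by
        ext w
        exact and_iff_left trivial
      exact h3 ▸ h2
    · intro w
      constructor
      · rintro ⟨j, hj, hw⟩
        exact ⟨⟨j, by omega⟩, hw⟩
      · rintro ⟨j, hw⟩
        exact ⟨j, by omega, hw⟩
  have hdec : ∀ v ∈ T, ∃ w ∈ L, ∃ z : List A, z.length ≤ K ∧ v = w ++ z := by
    rintro v ⟨j, hj, hv⟩
    obtain ⟨w, hw, z, hz, hvw⟩ := hv.decomp
    exact ⟨w, hw, z, hz.trans hj, hvw⟩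
  refine ⟨T, ⟨hTreg, ?_, ?_, ?_⟩, ?_, ?_⟩
  · rintro u v ⟨j, hj, hv⟩ huv
    obtain ⟨i, hi, hu⟩ := hv.initial hT.closed u huv
    exact ⟨i, hi.trans hj, hu⟩
  · rintro u ⟨i, hi, hu⟩ v ⟨j, hj, hv⟩ huv
    have h2 := hu.level hv huv
    subst h2
    exact Ext.unique hf hT.inj i u v hu hv huv
  · intro g
    obtain ⟨D, hD, hD'⟩ := FT_tails ev L hT.ft K g
    refine ⟨D, hD, ?_⟩
    intro u hu v hv huv i
    obtain ⟨w, hw, z, hz, rfl⟩ := hdec u hu
    obtain ⟨w', hw', z', hz', rfl⟩ := hdec v hv
    exact hD' w hw w' hw' z z' hz hz' huv i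
  · intro w hw
    exact ⟨0, Nat.zero_le _, Ext.base w hw⟩
  · intro g
    constructor
    · rintro ⟨w, ⟨j, hj, hw⟩, rfl⟩
      exact hw.near.mono hj
    · intro hg
      obtain ⟨i, hi, w, hw, hwg⟩ := Ext.exists (f := f) K g hg
      exact ⟨w, ⟨i, hi, hw⟩, hwg⟩

/-- Membership in the image of a smaller regular language is recognised along a tree. -/
theorem Reg_Im_sub (ev : A → G) (T T' : Language A) (hT' : Tree ev T') (hT : T.IsRegular)
    (hsub : ∀ w ∈ T, w ∈ T') : Reg ev T' (Im ev T) := by
  intro h
  set M : Language (Option A × Option A) := {x | x.filterMap Prod.snd ∈ T} with hM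
  have hMreg : M.IsRegular := isRegular_filterMap Prod.snd hT M (fun w => Iff.rfl)
  have h2 : (multiplier ev T' h ⊓ M).IsRegular := (hT'.mult h).inf hMreg
  refine isRegular_erase Prod.fst h2 _ ?_
  intro w
  constructor
  · rintro ⟨hw, v, hv, hvw⟩
    refine ⟨padPair w v, ⟨⟨w, hw, v, hsub v hv, hvw.symm, rfl⟩, ?_⟩, fst_padPair w v⟩
    change (padPair w v).filterMap Prod.snd ∈ T
    rw [snd_padPair]
    exact hv
  · rintro ⟨x, ⟨⟨u, hu, v, hv, huv, rfl⟩, hx2⟩, hx⟩
    rw [show List.zipWithAll Prod.mk u v = padPair u v from rfl, fst_padPair] at hx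
    change (padPair u v).filterMap Prod.snd ∈ T at hx2
    rw [snd_padPair] at hx2
    subst hx
    exact ⟨hu, v, hx2, huv.symm⟩

/-- Membership in a normal subgroup of finite index is recognised along every regular language. -/
theorem Reg_coset (ev : A → G) (T : Language A) (hT : T.IsRegular) (N : Subgroup G)
    [hN : N.Normal] [hf : N.FiniteIndex] : Reg ev T (fun g => g ∈ N) := by
  intro h
  have : Finite (G ⧸ N) := Subgroup.finite_quotient_of_finiteIndex
  have h2 : Language.IsRegular (T := A) {w | value ev w * h ∈ N} := by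
    refine isRegular_of_fold (σ := G ⧸ N) (fun x a => x * ((ev a : G) : G ⧸ N)) 1
      {x | x * ((h : G) : G ⧸ N) = 1} _ ?_
    intro w
    have key : ∀ (w : List A) (x : G ⧸ N), w.foldl (fun x a => x * ((ev a : G) : G ⧸ N)) x =
        x * ((value ev w : G) : G ⧸ N) := by
      intro w
      induction w with
      | nil => intro x; simp [value]
      | cons a w ih =>
        intro x
        rw [List.foldl_cons, ih]
        have : value ev (a :: w) = ev a * value ev w := by simp [value]
        rw [this, QuotientGroup.mk_mul, mul_assoc]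
    change _ ↔ (w.foldl (fun x a => x * ((ev a : G) : G ⧸ N)) 1) * ((h : G) : G ⧸ N) = 1
    rw [key, one_mul, ← QuotientGroup.mk_mul, QuotientGroup.eq_one_iff]
    exact Iff.rfl
  exact isRegular_and hT h2 _ (fun w => Iff.rfl)

/-! ### Periodic words -/

/-- `n` letters of the sequence `c` from position `l` on -/
def seg (c : ℕ → A) (l n : ℕ) : List A := (List.range n).map (fun i => c (l + i))

@[simp] theorem seg_zero (c : ℕ → A) (l : ℕ) : seg c l 0 = [] := rfl

@[simp] theorem length_seg (c : ℕ → A) (l n : ℕ) : (seg c l n).length = n := by simp [seg]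

theorem seg_succ (c : ℕ → A) (l n : ℕ) : seg c l (n + 1) = seg c l n ++ [c (l + n)] := by
  simp [seg, List.range_succ]

theorem take_seg (c : ℕ → A) (l n k : ℕ) : (seg c l n).take k = seg c l (min k n) := by
  simp [seg, ← List.map_take, List.take_range]

theorem seg_add (c : ℕ → A) (l n k : ℕ) : seg c l (n + k) = seg c l n ++ seg c (l + n) k := by
  induction k with
  | zero => simp
  | succ k ih => rw [← add_assoc, seg_succ, ih, seg_succ, List.append_assoc, add_assoc]

/-- the position reached after `i` letters of `c` -/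
def pos (ev : A → G) (c : ℕ → A) (i : ℕ) : G := value ev (seg c 0 i)

@[simp] theorem pos_zero (ev : A → G) (c : ℕ → A) : pos ev c 0 = 1 := by simp [pos, value]

theorem pos_succ (ev : A → G) (c : ℕ → A) (i : ℕ) : pos ev c (i + 1) = pos ev c i * ev (c i) := by
  unfold pos
  rw [seg_succ, value_append, zero_add]
  simp [value]

theorem pos_add (ev : A → G) (c : ℕ → A) (l n : ℕ) :
    pos ev c (l + n) = pos ev c l * value ev (seg c l n) := by
  unfold pos
  rw [seg_add, value_append, zero_add]

theorem pos_period (ev : A → G) (c : ℕ → A) (m : ℕ) (hc : ∀ i, c (i + m) = c i) (i : ℕ) :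
    pos ev c (i + m) = pos ev c m * pos ev c i := by
  induction i with
  | zero => simp
  | succ i ih =>
    rw [show i + 1 + m = (i + m) + 1 by ring, pos_succ, ih, hc, pos_succ, mul_assoc]

theorem pos_mul (ev : A → G) (c : ℕ → A) (m : ℕ) (hc : ∀ i, c (i + m) = c i) (a i : ℕ) :
    pos ev c (m * a + i) = pos ev c m ^ a * pos ev c i := by
  induction a with
  | zero => simp
  | succ a ih =>
    rw [show m * (a + 1) + i = (m * a + i) + m by ring, pos_period ev c m hc, ih, pow_succ',
      mul_assoc]

theorem isRegular_tail {M : Language A} (hM : M.IsRegular) (c : ℕ → A) (m : ℕ) (hm : 0 < m)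
    (hc : ∀ i, c (i + m) = c i) (l : ℕ) (L : Language A)
    (hL : ∀ v, v ∈ L ↔ ∃ w ∈ M, ∃ n, v = w ++ seg c l n) : L.IsRegular := by
  classical
  have : NeZero m := ⟨hm.ne'⟩
  obtain ⟨σ, hσ, step, s0, acc, hacc⟩ := exists_fold hM
  set cz : ZMod m → A := fun z => c z.val with hcz
  have hcm : ∀ i k : ℕ, c (i + m * k) = c i := by
    intro i k
    induction k with
    | zero => rfl
    | succ k ih => rw [Nat.mul_succ, ← add_assoc, hc, ih]
  have hcc : ∀ i : ℕ, cz (i : ZMod m) = c i := by
    intro i
    change c ((i : ZMod m).val) = c i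
    rw [ZMod.val_natCast, ← hcm (i % m) (i / m), Nat.mod_add_div]
  set st : σ × Set (ZMod m) → A → σ × Set (ZMod m) := fun s a => (step s.1 a,
    {y | (∃ x ∈ s.2, cz x = a ∧ y = x + 1) ∨ (step s.1 a ∈ acc ∧ y = (l : ZMod m))}) with hst
  refine isRegular_of_fold st (s0, {y | s0 ∈ acc ∧ y = (l : ZMod m)}) {s | s.2.Nonempty} L ?_
  intro v
  have key : ∀ v : List A, v.foldl st (s0, {y | s0 ∈ acc ∧ y = (l : ZMod m)}) =
      (v.foldl step s0, {y | ∃ w ∈ M, ∃ n : ℕ, v = w ++ seg c l n ∧
        y = ((l + n : ℕ) : ZMod m)}) := by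
    intro v
    induction v using List.reverseRecOn with
    | nil =>
      refine Prod.ext rfl ?_
      ext y
      constructor
      · rintro ⟨h1, h2⟩
        exact ⟨[], (hacc []).2 h1, 0, rfl, by rw [h2, add_zero]⟩
      · rintro ⟨w, hw, n, hn, hy⟩
        have h1 := congrArg List.length hn
        simp only [List.length_nil, List.length_append, length_seg] at h1
        have h2 : w = [] := List.length_eq_zero_iff.1 (by omega)
        have h3 : n = 0 := by omega
        subst h2 h3
        exact ⟨(hacc []).1 hw, by simpa using hy⟩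
    | append_singleton v a ih =>
      rw [List.foldl_append, ih, List.foldl_append]
      refine Prod.ext rfl ?_
      ext y
      constructor
      · rintro (⟨x, ⟨w, hw, n, hn, hx⟩, hxa, hy⟩ | ⟨h1, h2⟩)
        · refine ⟨w, hw, n + 1, ?_, ?_⟩
          · rw [seg_succ, ← List.append_assoc, ← hn, ← hxa, hx, hcc]
          · rw [hy, hx]
            push_cast
            ring
        · refine ⟨v ++ [a], ?_, 0, by simp, by simpa using h2⟩
          rw [hacc, List.foldl_append]
          exact h1
      · rintro ⟨w, hw, n, hn, hy⟩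
        cases n with
        | zero =>
          right
          rw [seg_zero, List.append_nil] at hn
          subst hn
          refine ⟨?_, by simpa using hy⟩
          have := (hacc _).1 hw
          rw [List.foldl_append] at this
          exact this
        | succ n =>
          left
          rw [seg_succ, ← List.append_assoc] at hn
          obtain ⟨h1, h2⟩ := List.append_inj' hn rfl
          refine ⟨((l + n : ℕ) : ZMod m), ⟨w, hw, n, h1, rfl⟩, ?_, ?_⟩
          · rw [hcc]
            simpa using h2.symm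
          · rw [hy]
            push_cast
            ring
  rw [hL]
  change _ ↔ (v.foldl st (s0, {y | s0 ∈ acc ∧ y = (l : ZMod m)})).2.Nonempty
  rw [key]
  constructor
  · rintro ⟨w, hw, n, hn⟩
    exact ⟨_, w, hw, n, hn, rfl⟩
  · rintro ⟨y, w, hw, n, hn, -⟩
    exact ⟨w, hw, n, hn⟩

end Pool.Agent.H47.VA
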