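import Pool.Agent.H47.VA.Stage

/-!
# Virtually abelian groups, every alphabet
-/

namespace Pool.Agent.H47.VA

open Pool.Agent.H47.CD

universe u v w

variable {G : Type u} [Group G] {A : Type v}

/-- the image of `T` and the subgroup `M` are within bounded distance of each other -/
structure Approx (ev : A → G) (T : Language A) (M : Subgroup G) : Prop where
  sub : ∃ F : Set G, F.Finite ∧ ∀ g, Im ev T g → ∃ μ ∈ M, ∃ f ∈ F, g = μ * f
  cover : ∃ F : Set G, F.Finite ∧ ∀ μ ∈ M, ∃ s, Im ev T s ∧ ∃ f ∈ F, μ = s * f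

/-- the subgroup generated by `M` and `t` inside an abelian subgroup -/
def adj (N M : Subgroup G) (hab : ∀ x ∈ N, ∀ y ∈ N, x * y = y * x) (hMN : M ≤ N) (t : G)
    (ht : t ∈ N) : Subgroup G where
  carrier := {g | ∃ μ ∈ M, ∃ k : ℤ, g = μ * t ^ k}
  one_mem' := ⟨1, M.one_mem, 0, by simp⟩
  mul_mem' := by
    rintro _ _ ⟨μ, hμ, k, rfl⟩ ⟨ν, hν, j, rfl⟩
    refine ⟨μ * ν, M.mul_mem hμ hν, k + j, ?_⟩
    have h1 : t ^ k * ν = ν * t ^ k := hab _ (N.zpow_mem ht _) _ (hMN hν)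
    calc μ * t ^ k * (ν * t ^ j) = μ * (t ^ k * ν) * t ^ j := by group
      _ = μ * (ν * t ^ k) * t ^ j := by rw [h1]
      _ = μ * ν * t ^ (k + j) := by rw [zpow_add]; group
  inv_mem' := by
    rintro _ ⟨μ, hμ, k, rfl⟩
    refine ⟨μ⁻¹, M.inv_mem hμ, -k, ?_⟩
    have h1 : t ^ (-k) * μ⁻¹ = μ⁻¹ * t ^ (-k) :=
      hab _ (N.zpow_mem ht _) _ (hMN (M.inv_mem hμ))
    rw [mul_inv_rev, ← zpow_neg, h1]

theorem stage [Finite A] (ev : A → G) (hgen : Submonoid.closure (Set.range ev) = ⊤)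
    (N M : Subgroup G) [hNn : N.Normal] (hab : ∀ x ∈ N, ∀ y ∈ N, x * y = y * x) (hMN : M ≤ N)
    (t : G) (ht : t ∈ N)
    (hsep : ∀ E : Set G, E.Finite →
      ∃ L : Subgroup G, L.Normal ∧ L.FiniteIndex ∧ L ≤ N ∧ ∀ e ∈ E, e ∈ L → e = 1)
    (T : Language A) (hT : Tree ev T) (hA : Approx ev T M) :
    ∃ M' : Subgroup G, M ≤ M' ∧ t ∈ M' ∧ M' ≤ N ∧ ∃ T' : Language A, Tree ev T' ∧
      Approx ev T' M' := by
  classical
  have hM1 : M ≤ adj N M hab hMN t ht := fun μ hμ => ⟨μ, hμ, 0, by simp⟩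
  have hM2 : t ∈ adj N M hab hMN t ht := ⟨1, M.one_mem, 1, by simp⟩
  have hM3 : adj N M hab hMN t ht ≤ N := by
    rintro _ ⟨μ, hμ, k, rfl⟩
    exact N.mul_mem (hMN hμ) (N.zpow_mem ht _)
  refine ⟨adj N M hab hMN t ht, hM1, hM2, hM3, ?_⟩
  obtain ⟨Fs, hFs, hFs'⟩ := hA.sub
  obtain ⟨F0, hF0, hF0'⟩ := hA.cover
  by_cases hdep : ∃ k : ℤ, k ≠ 0 ∧ t ^ k ∈ M
  · obtain ⟨k, hk, hkM⟩ := hdep
    refine ⟨T, hT, ⟨Fs, hFs, ?_⟩, ?_⟩
    · intro g hg
      obtain ⟨μ, hμ, f, hf, h⟩ := hFs' g hg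
      exact ⟨μ, hM1 hμ, f, hf, h⟩
    · have hn : t ^ ((k.natAbs : ℕ) : ℤ) ∈ M := by
        rcases Int.natAbs_eq k with h | h
        · rwa [← h]
        · have h1 : ((k.natAbs : ℕ) : ℤ) = -k := by omega
          rw [h1, zpow_neg]
          exact M.inv_mem hkM
      have hnpos : (0 : ℤ) < ((k.natAbs : ℕ) : ℤ) := by omega
      refine ⟨Set.image2 (fun f x => f * x) F0
        (Set.range (fun r : Fin k.natAbs => t ^ (r : ℕ))), hF0.image2 _ (Set.finite_range _), ?_⟩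
      rintro _ ⟨μ, hμ, j, rfl⟩
      have hj := Int.mul_ediv_add_emod j ((k.natAbs : ℕ) : ℤ)
      have hr1 := Int.emod_nonneg j hnpos.ne'
      have hr2 := Int.emod_lt_of_pos j hnpos
      set r := j % ((k.natAbs : ℕ) : ℤ) with hr
      obtain ⟨s, hs, f, hf, h1⟩ := hF0' (μ * (t ^ ((k.natAbs : ℕ) : ℤ)) ^ (j / ((k.natAbs : ℕ) : ℤ)))
        (M.mul_mem hμ (M.zpow_mem hn _))
      refine ⟨s, hs, f * t ^ r.toNat, ⟨f, hf, _, ⟨⟨r.toNat, by omega⟩, rfl⟩, rfl⟩, ?_⟩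
      have h2 : t ^ j = (t ^ ((k.natAbs : ℕ) : ℤ)) ^ (j / ((k.natAbs : ℕ) : ℤ)) *
          t ^ r.toNat := by
        rw [← zpow_mul, ← zpow_natCast t r.toNat, Int.toNat_of_nonneg hr1, ← zpow_add, hj]
      rw [h2, ← mul_assoc, h1, mul_assoc]
  · push Not at hdep
    have hind : ∀ k : ℤ, t ^ k ∈ M → k = 0 := by
      intro k hk
      by_contra hne
      exact hdep k hne hk
    have hind' : ∀ k : ℤ, t⁻¹ ^ k ∈ M → k = 0 := by
      intro k hk
      rw [inv_zpow, ← zpow_neg] at hk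
      have := hind _ hk
      omega
    have hord : ∀ s : G, (∀ k : ℤ, s ^ k ∈ M → k = 0) → ∀ k : ℕ, 0 < k → s ^ k ≠ 1 := by
      intro s hs k hk h1
      have := hs k (by rw [zpow_natCast, h1]; exact M.one_mem)
      omega
    obtain ⟨u1, hu1⟩ := exists_word ev hgen t
    obtain ⟨u2, hu2⟩ := exists_word ev hgen t⁻¹
    obtain ⟨c1, m1, d1, q1, hm1, hd1, hc1, hinj1, hdir1⟩ :=
      exists_path ev t (hord t hind) u1 hu1
    obtain ⟨c2, m2, d2, q2, hm2, hd2, hc2, hinj2, hdir2⟩ :=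
      exists_path ev t⁻¹ (hord t⁻¹ hind') u2 hu2
    have hx1 : Ctx ev N M t c1 m1 d1 q1 := ⟨hab, hMN, ht, hind, hm1, hd1, hc1, hinj1, hdir1⟩
    have hx2 : Ctx ev N M t⁻¹ c2 m2 d2 q2 :=
      ⟨hab, hMN, N.inv_mem ht, hind', hm2, hd2, hc2, hinj2, hdir2⟩
    obtain ⟨K, hK⟩ := exists_bound ev hgen ((fun f => f * q1) '' F0 ∪ (fun f => f * q2) '' F0)
      ((hF0.image _).union (hF0.image _))
    obtain ⟨T1, hT1, hTT1, hIm⟩ := thicken ev T hT K
    have hq : ∀ q, (∀ f ∈ F0, f * q ∈ (fun f => f * q1) '' F0 ∪ (fun f => f * q2) '' F0) →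
        ∀ μ ∈ M, Im ev T1 (μ * q) := by
      intro q hqq μ hμ
      obtain ⟨s, hs, f, hf, h1⟩ := hF0' μ hμ
      obtain ⟨z, hz, hz'⟩ := hK _ (hqq f hf)
      rw [hIm]
      refine ⟨z, hz, ?_⟩
      rw [hz', h1]
      have : s * f * q * (f * q)⁻¹ = s := by group
      rwa [this]
    have hq1 := hq q1 (fun f hf => Or.inl ⟨f, hf, rfl⟩)
    have hq2 := hq q2 (fun f hf => Or.inr ⟨f, hf, rfl⟩)
    set Z : Set G := (value ev) '' {z : List A | z.length ≤ K} with hZ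
    have hZfin : Z.Finite := (List.finite_length_le A K).image _
    set F1 : Set G := Set.image2 (fun f z => f * z) Fs Z with hF1
    have hF1fin : F1.Finite := hFs.image2 _ hZfin
    have hT1F : ∀ g, Im ev T1 g → ∃ μ ∈ M, ∃ f ∈ F1, g = μ * f := by
      intro g hg
      rw [hIm] at hg
      obtain ⟨z, hz, hz'⟩ := hg
      obtain ⟨μ, hμ, f, hf, h1⟩ := hFs' _ hz'
      refine ⟨μ, hμ, f * value ev z, ⟨f, hf, _, ⟨z, hz, rfl⟩, rfl⟩, ?_⟩
      rw [← mul_assoc, ← h1]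
      group
    obtain ⟨T2, hT2, h12, ⟨F3, hF3, hnew2⟩, F4, hF4, hcov2⟩ :=
      addRays ev hx1 hsep T1 T1 hT1 hT1 (fun w hw => hw) F1 F1 hF1fin hF1fin hT1F
        (by
          intro g hg
          obtain ⟨μ, hμ, f, hf, h1⟩ := hT1F g hg
          exact ⟨0, le_rfl, μ, hμ, f, hf, by simpa using h1⟩)
        hq1
    obtain ⟨T3, hT3, h23, ⟨F5, hF5, hnew3⟩, F6, hF6, hcov3⟩ :=
      addRays ev hx2 hsep T1 T2 hT1 hT2 h12 F1 (F1 ∪ F3) hF1fin (hF1fin.union hF3) hT1F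
        (by
          intro g hg
          rcases hnew2 g hg with h1 | ⟨k, hk, h1⟩
          · obtain ⟨μ, hμ, f, hf, h1⟩ := hT1F g h1
            exact ⟨0, le_rfl, μ, hμ, f, Or.inl hf, by simpa using h1⟩
          · exact ⟨-k, by omega, h1.neg.mono Set.subset_union_right⟩)
        hq2
    refine ⟨T3, hT3, ⟨F1 ∪ F3 ∪ F5, (hF1fin.union hF3).union hF5, ?_⟩,
      ⟨F4 ∪ F6, hF4.union hF6, ?_⟩⟩
    · intro g hg
      rcases hnew3 g hg with h1 | ⟨k, hk, μ, hμ, f, hf, h1⟩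
      · rcases hnew2 g h1 with h2 | ⟨k, hk, μ, hμ, f, hf, h2⟩
        · obtain ⟨μ, hμ, f, hf, h3⟩ := hT1F g h2
          exact ⟨μ, hM1 hμ, f, Or.inl (Or.inl hf), h3⟩
        · exact ⟨μ * t ^ k, ⟨μ, hμ, k, rfl⟩, f, Or.inl (Or.inr hf), h2⟩
      · refine ⟨μ * t⁻¹ ^ k, ⟨μ, hμ, -k, ?_⟩, f, Or.inr hf, h1⟩
        rw [inv_zpow, zpow_neg]
    · rintro _ ⟨μ, hμ, k, rfl⟩
      obtain ⟨n, hn⟩ := Int.eq_nat_or_neg k
      rcases hn with hn | hn
      · obtain ⟨s, ⟨w, hw, hws⟩, f, hf, h1⟩ := hcov2 μ hμ n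
        refine ⟨s, ⟨w, h23 w hw, hws⟩, f, Or.inl hf, ?_⟩
        rw [← h1, hn, zpow_natCast]
      · obtain ⟨s, hs, f, hf, h1⟩ := hcov3 μ hμ n
        refine ⟨s, hs, f, Or.inr hf, ?_⟩
        rw [← h1, hn, zpow_neg, zpow_natCast, inv_pow]

theorem tree_list [Finite A] (ev : A → G) (hgen : Submonoid.closure (Set.range ev) = ⊤)
    (N : Subgroup G) [hNn : N.Normal] (hab : ∀ x ∈ N, ∀ y ∈ N, x * y = y * x)
    (hsep : ∀ E : Set G, E.Finite →
      ∃ L : Subgroup G, L.Normal ∧ L.FiniteIndex ∧ L ≤ N ∧ ∀ e ∈ E, e ∈ L → e = 1)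
    (l : List G) (hl : ∀ x ∈ l, x ∈ N) :
    ∃ M : Subgroup G, M ≤ N ∧ (∀ x ∈ l, x ∈ M) ∧ ∃ T : Language A, Tree ev T ∧
      Approx ev T M := by
  induction l with
  | nil =>
    refine ⟨⊥, bot_le, by simp, ({[]} : Set (List A)), ⟨?_, ?_, ?_, ?_⟩, ⟨{1}, by simp, ?_⟩,
      ⟨{1}, by simp, ?_⟩⟩
    · refine isRegular_of_fold (σ := Bool) (fun _ _ => false) true {b | b = true} _ ?_
      intro w
      rcases w.eq_nil_or_concat with rfl | ⟨v, b, rfl⟩
      · exact ⟨fun _ => rfl, fun _ => rfl⟩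
      · constructor
        · intro h
          have : v.concat b = [] := h
          simp at this
        · intro h
          rw [List.concat_eq_append, List.foldl_append] at h
          have : false = true := h
          cases this
    · rintro u v hv huv
      have hv' : v = [] := hv
      subst hv'
      exact List.prefix_nil.1 huv
    · intro u hu v hv _
      exact (show u = [] from hu).trans (show v = [] from hv).symm
    · intro g
      refine ⟨{1}, by simp, ?_⟩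
      intro u hu v hv _ i
      have hu' : u = [] := hu
      have hv' : v = [] := hv
      subst hu' hv'
      simp [value]
    · rintro g ⟨w, hw, rfl⟩
      have hw' : w = [] := hw
      subst hw'
      exact ⟨1, Subgroup.one_mem _, 1, rfl, by simp [value]⟩
    · intro μ hμ
      rw [Subgroup.mem_bot] at hμ
      exact ⟨1, ⟨[], rfl, rfl⟩, 1, rfl, by simp [hμ]⟩
  | cons t l ih =>
    obtain ⟨M, hMN, hlM, T, hT, hA⟩ := ih (fun x hx => hl x (List.mem_cons_of_mem _ hx))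
    obtain ⟨M', h1, h2, h3, T', hT', hA'⟩ := stage ev hgen N M hab hMN t
      (hl t List.mem_cons_self) hsep T hT hA
    refine ⟨M', h3, ?_, T', hT', hA'⟩
    intro x hx
    rcases List.mem_cons.1 hx with rfl | hx
    · exact h2
    · exact h1 (hlM x hx)

theorem virtually_abelian [Finite A] (ev : A → G)
    (hgen : Submonoid.closure (Set.range ev) = ⊤) (N0 : Subgroup G) [hf : N0.FiniteIndex]
    (hab0 : ∀ x ∈ N0, ∀ y ∈ N0, x * y = y * x) :
    ∃ T : Language A, IsAutomaticStructure ev T ∧ PrefixClosed T ∧ Uniqueness ev T := by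
  classical
  have hfg : Group.FG G := by
    rw [Group.fg_iff]
    refine ⟨Set.range ev, ?_, Set.finite_range ev⟩
    rw [eq_top_iff]
    intro g _
    have h1 : g ∈ Submonoid.closure (Set.range ev) := by rw [hgen]; trivial
    exact (Submonoid.closure_le (S := (Subgroup.closure (Set.range ev)).toSubmonoid)).2
      Subgroup.subset_closure h1
  set N := N0.normalCore with hN
  have hab : ∀ x ∈ N, ∀ y ∈ N, x * y = y * x := fun x hx y hy =>
    hab0 x (N0.normalCore_le hx) y (N0.normalCore_le hy)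
  have hNfg : Group.FG N := Subgroup.fg_of_index_ne_zero N
  obtain ⟨S, hS⟩ := (Group.fg_iff_subgroup_fg N).1 hNfg
  have hSN : ∀ x ∈ S, x ∈ N := by
    intro x hx
    rw [← hS]
    exact Subgroup.subset_closure hx
  obtain ⟨M, hMN, hlM, T, hT, hA⟩ := tree_list ev hgen N hab
    (fun E hE => exists_sep N hab E hE) S.toList (by simpa using hSN)
  have hNM : N ≤ M := by
    rw [← hS, Subgroup.closure_le]
    intro x hx
    exact hlM x (by simpa using hx)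
  obtain ⟨F, hF, hF'⟩ := hA.cover
  have : Finite (G ⧸ N) := Subgroup.finite_quotient_of_finiteIndex
  obtain ⟨K, hK⟩ := exists_bound ev hgen (Set.image2 (fun f r => f * r) F
    (Set.range (fun κ : G ⧸ N => κ.out))) (hF.image2 _ (Set.finite_range _))
  obtain ⟨T', -, h1, h2, h3, -⟩ := dense ev hgen T hT.regular hT.mult hT.closed hT.inj K (by
    intro g
    set r := ((g : G) : G ⧸ N).out with hr
    have hr' : ((r : G) : G ⧸ N) = ((g : G) : G ⧸ N) := Quotient.out_eq' _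
    have hgN : g * r⁻¹ ∈ N := by
      rw [← QuotientGroup.eq_one_iff, QuotientGroup.mk_mul, QuotientGroup.mk_inv, hr',
        mul_inv_cancel]
    obtain ⟨s, ⟨w, hw, hws⟩, f, hf, h4⟩ := hF' _ (hNM hgN)
    obtain ⟨z, hz, hz'⟩ := hK (f * r) ⟨f, hf, r, ⟨_, rfl⟩, rfl⟩
    refine ⟨w, hw, z, hz, ?_⟩
    rw [hws, hz', ← mul_assoc, ← h4]
    group)
  exact ⟨T', h1, h2, h3⟩

end Pool.Agent.H47.VA
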