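import Pool.Agent.H47.VA.Basic

/-!
# Self-avoiding periodic paths in the direction of an element of infinite order
-/

namespace Pool.Agent.H47.VA

open Pool.Agent.H47.CD

universe u v w

variable {G : Type u} [Group G] {A : Type v}

theorem exists_path (ev : A → G) (t : G) (ht : ∀ k : ℕ, 0 < k → t ^ k ≠ 1) (u : List A)
    (hu : value ev u = t) : ∃ (c : ℕ → A) (m d : ℕ) (q : G), 0 < m ∧ 0 < d ∧
      (∀ i, c (i + m) = c i) ∧ Function.Injective (pos ev c) ∧
      pos ev c m = q⁻¹ * t ^ d * q := by
  classical
  have hn : 0 < u.length := by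
    rcases Nat.eq_zero_or_pos u.length with h | h
    · exfalso
      have h1 : u = [] := List.length_eq_zero_iff.1 h
      subst h1
      exact ht 1 one_pos (by rw [pow_one, ← hu]; rfl)
    · exact h
  set n := u.length with hndef
  set c0 : ℕ → A := fun i => u[i % n]'(Nat.mod_lt _ hn) with hc0
  have hc0n : ∀ i, c0 (i + n) = c0 i := by
    intro i
    simp [hc0]
  have hseg : seg c0 0 n = u := by
    apply List.ext_getElem
    · simp [hndef]
    · intro i h1 h2
      simp only [seg, List.getElem_map, List.getElem_range, zero_add, hc0]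
      congr 1
      exact Nat.mod_eq_of_lt h2
  set p := pos ev c0 with hp
  have hpn : p n = t := by rw [hp, pos, hseg, hu]
  have hpa : ∀ a i, p (n * a + i) = t ^ a * p i := by
    intro a i
    rw [hp, pos_mul ev c0 n hc0n, ← hp, hpn]
  -- fibres are finite
  have hfib : ∀ i, Set.Finite {j | p j = p i} := by
    intro i
    have hsub : ((fun j => j % n) '' {j | p j = p i}) ⊆ Set.Iio n := by
      rintro _ ⟨j, -, rfl⟩
      exact Nat.mod_lt _ hn
    refine Set.Finite.of_finite_image ((Set.finite_Iio n).subset hsub) ?_
    intro j hj j' hj' hjj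
    simp only at hjj
    have h1 : p j = t ^ (j / n) * p (j % n) := by rw [← hpa, Nat.div_add_mod]
    have h2 : p j' = t ^ (j' / n) * p (j' % n) := by rw [← hpa, Nat.div_add_mod]
    have h3 : t ^ (j / n) = t ^ (j' / n) := by
      have h4 : p j = p j' := (show p j = p i from hj).trans (show p j' = p i from hj').symm
      rw [h1, h2, hjj] at h4
      exact mul_right_cancel h4
    have h5 : j / n = j' / n := by
      rcases lt_trichotomy (j / n) (j' / n) with h | h | h
      · exfalso
        obtain ⟨k, hk⟩ := Nat.exists_eq_add_of_lt h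
        rw [hk, add_assoc, pow_add, left_eq_mul] at h3
        exact ht _ (by omega) h3
      · exact h
      · exfalso
        obtain ⟨k, hk⟩ := Nat.exists_eq_add_of_lt h
        rw [hk, add_assoc, pow_add, mul_eq_left] at h3
        exact ht _ (by omega) h3
    rw [← Nat.div_add_mod j n, ← Nat.div_add_mod j' n, h5, hjj]
  have hlast : ∀ i, ∃ l, p l = p i ∧ ∀ j, p j = p i → j ≤ l := by
    intro i
    obtain ⟨B, hB⟩ := (hfib i).bddAbove
    refine ⟨Nat.findGreatest (fun j => p j = p i) B, ?_, ?_⟩
    · exact Nat.findGreatest_spec (P := fun j => p j = p i) (hB rfl) rfl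
    · intro j hj
      exact Nat.le_findGreatest (hB hj) hj
  choose last hl1 hl2 using hlast
  have hle : ∀ i, i ≤ last i := fun i => hl2 i i rfl
  have hshift : ∀ i, last (i + n) = last i + n := by
    intro i
    have h1 : ∀ j, p (j + n) = t * p j := by
      intro j
      have := hpa 1 j
      rw [mul_one, pow_one] at this
      rw [add_comm]
      exact this
    apply le_antisymm
    · have h2 := hle (i + n)
      obtain ⟨j, hj⟩ : ∃ j, last (i + n) = j + n := ⟨last (i + n) - n, by omega⟩
      have h3 := hl1 (i + n)
      rw [hj, h1, h1] at h3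
      have := hl2 i j (mul_left_cancel h3)
      omega
    · apply hl2
      rw [h1, h1, hl1]
  have hshift' : ∀ d i, last (i + n * d) = last i + n * d := by
    intro d i
    induction d with
    | zero => simp
    | succ d ih => rw [Nat.mul_succ, ← add_assoc, hshift, ih, add_assoc]
  have hc0d : ∀ d i, c0 (i + n * d) = c0 i := by
    intro d i
    induction d with
    | zero => simp
    | succ d ih => rw [Nat.mul_succ, ← add_assoc, hc0n, ih]
  -- the loop-erased sequence
  let s : ℕ → ℕ := fun k => Nat.rec 0 (fun _ x => last x + 1) k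
  have hs : ∀ k, s (k + 1) = last (s k) + 1 := fun k => rfl
  have hmono : StrictMono s := strictMono_nat_of_lt_succ (fun k => by
    have := hle (s k)
    rw [hs]
    omega)
  have hsinj : ∀ a b, p (s a) = p (s b) → a = b := by
    have aux : ∀ a b, p (s a) = p (s b) → ¬ a < b := by
      intro a b hab hlt
      have h1 : s (a + 1) ≤ s b := hmono.monotone (show a + 1 ≤ b by omega)
      rw [hs] at h1
      have h2 := hl2 (s a) (s b) hab.symm
      omega
    intro a b hab
    have h1 := aux a b hab
    have h2 := aux b a hab.symm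
    omega
  obtain ⟨k1, k2, hk12, hmod⟩ : ∃ k1 k2, k1 < k2 ∧ s k1 % n = s k2 % n := by
    obtain ⟨x, y, hxy, he⟩ := Finite.exists_ne_map_eq_of_infinite
      (fun k => (⟨s k % n, Nat.mod_lt _ hn⟩ : Fin n))
    have he' : s x % n = s y % n := congrArg Fin.val he
    rcases Nat.lt_or_gt_of_ne hxy with h | h
    · exact ⟨x, y, h, he'⟩
    · exact ⟨y, x, h, he'.symm⟩
  have hlt := hmono hk12
  obtain ⟨d, hd⟩ : n ∣ s k2 - s k1 := (Nat.modEq_iff_dvd' hlt.le).1 hmod
  have hd' : s k2 = s k1 + n * d := by omega
  have hdpos : 0 < d := by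
    rcases Nat.eq_zero_or_pos d with h | h
    · rw [h, mul_zero] at hd'
      omega
    · exact h
  have hsh : ∀ j, s (k2 + j) = s (k1 + j) + n * d := by
    intro j
    induction j with
    | zero => simpa using hd'
    | succ j ih =>
      rw [← add_assoc, hs, ih, hshift', ← add_assoc, hs]
      ring
  have hpos : ∀ j, pos ev (fun j => c0 (last (s (k1 + j)))) j = (p (s k1))⁻¹ * p (s (k1 + j)) := by
    intro j
    induction j with
    | zero => simp
    | succ j ih =>
      rw [pos_succ, ih, ← add_assoc, hs, hp, pos_succ, ← hp, hl1]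
      group
  refine ⟨fun j => c0 (last (s (k1 + j))), k2 - k1, d, p (s k1), by omega, hdpos, ?_, ?_, ?_⟩
  · intro i
    simp only
    have : k1 + (i + (k2 - k1)) = k2 + i := by omega
    rw [this, hsh, hshift', hc0d]
  · intro a b hab
    rw [hpos, hpos] at hab
    have := hsinj _ _ (mul_left_cancel hab)
    omega
  · rw [hpos]
    have : k1 + (k2 - k1) = k2 := by omega
    rw [this, hd', add_comm, hpa]
    group

end Pool.Agent.H47.VA
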