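import Pool.Agent.H47.VA.Basic

/-!
# Adding periodic rays to a tree
-/

namespace Pool.Agent.H47.VA

open Pool.Agent.H47.CD

universe u v w

variable {G : Type u} [Group G] {A : Type v}

/-- fellow travelling words of a tree have almost the same length -/
theorem length_le_of_ft (ev : A → G) (T : Language A) (hT : Tree ev T) (D : Set G)
    (hD : D.Finite) (w w' : List A) (hw' : w' ∈ T)
    (h : ∀ i, (value ev (w.take i))⁻¹ * value ev (w'.take i) ∈ D) :
    w'.length ≤ w.length + D.ncard := by
  classical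
  by_contra hlt
  push Not at hlt
  have hmem : ∀ i : Fin (D.ncard + 1),
      (value ev w)⁻¹ * value ev (w'.take (w.length + i)) ∈ D := by
    intro i
    have h1 := h (w.length + i)
    rwa [List.take_of_length_le (by omega)] at h1
  have : Finite D := hD
  have hinj : Function.Injective (fun i : Fin (D.ncard + 1) => (⟨_, hmem i⟩ : D)) := by
    intro i j hij
    have h1 := congrArg Subtype.val hij
    simp only at h1
    have h2 := mul_left_cancel h1
    have h3 := hT.inj _ (hT.closed _ w' hw' (List.take_prefix _ _)) _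
      (hT.closed _ w' hw' (List.take_prefix _ _)) h2
    have h4 := congrArg List.length h3
    rw [List.length_take, List.length_take] at h4
    have hi := i.2
    have hj := j.2
    apply Fin.ext
    omega
  have h5 := Nat.card_le_card_of_injective _ hinj
  rw [Nat.card_fin, Nat.card_coe_set_eq] at h5
  omega

theorem pos_par (ev : A → G) (c : ℕ → A) (m : ℕ) (hm : 0 < m) (hc : ∀ i, c (i + m) = c i)
    (D : Set G) (hD : D.Finite) (C : ℕ) : ∃ E : Set G, E.Finite ∧ ∀ δ ∈ D,
      Commute δ (pos ev c m) → ∀ k k' : ℕ, k ≤ k' + C → k' ≤ k + C →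
      (pos ev c k)⁻¹ * δ * pos ev c k' ∈ E := by
  have : Finite D := hD
  refine ⟨Set.range (fun p : Fin m × Fin m × Fin (2 * C + 1) × D =>
    (pos ev c p.1)⁻¹ * p.2.2.2 * pos ev c m ^ ((p.2.2.1 : ℤ) - C) * pos ev c p.2.1),
    Set.finite_range _, ?_⟩
  intro δ hδ hcom k k' hk hk'
  set t := pos ev c m with ht
  have h1 : pos ev c k = t ^ (k / m) * pos ev c (k % m) := by
    rw [ht, ← pos_mul ev c m hc, Nat.div_add_mod]
  have h2 : pos ev c k' = t ^ (k' / m) * pos ev c (k' % m) := by
    rw [ht, ← pos_mul ev c m hc, Nat.div_add_mod]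
  have h3 : k' / m ≤ k / m + C := by
    calc k' / m ≤ (k + C * m) / m := Nat.div_le_div_right (hk'.trans (by nlinarith))
      _ = k / m + C := Nat.add_mul_div_right _ _ hm
  have h4 : k / m ≤ k' / m + C := by
    calc k / m ≤ (k' + C * m) / m := Nat.div_le_div_right (hk.trans (by nlinarith))
      _ = k' / m + C := Nat.add_mul_div_right _ _ hm
  refine ⟨(⟨k % m, Nat.mod_lt _ hm⟩, ⟨k' % m, Nat.mod_lt _ hm⟩,
    ⟨k' / m + C - k / m, by omega⟩, ⟨δ, hδ⟩), ?_⟩
  simp only
  rw [h1, h2]
  have h5 : ((k' / m + C - k / m : ℕ) : ℤ) - C = (k' / m : ℕ) - (k / m : ℕ) := by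
    push_cast [Nat.cast_sub h4]
    ring
  rw [h5, zpow_sub, zpow_natCast, zpow_natCast]
  have h6 : Commute δ (t ^ (k / m))⁻¹ := (hcom.pow_right _).inv_right
  have h7 : Commute (t ^ (k' / m)) (t ^ (k / m))⁻¹ := ((Commute.refl t).pow_pow _ _).inv_right
  calc (pos ev c (k % m))⁻¹ * δ * (t ^ (k' / m) * (t ^ (k / m))⁻¹) * pos ev c (k' % m)
      = (pos ev c (k % m))⁻¹ * δ * ((t ^ (k / m))⁻¹ * t ^ (k' / m)) * pos ev c (k' % m) := by
        rw [h7.eq]
    _ = (pos ev c (k % m))⁻¹ * (δ * (t ^ (k / m))⁻¹) * t ^ (k' / m) * pos ev c (k' % m) := by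
        group
    _ = (pos ev c (k % m))⁻¹ * ((t ^ (k / m))⁻¹ * δ) * t ^ (k' / m) * pos ev c (k' % m) := by
        rw [h6.eq]
    _ = (t ^ (k / m) * pos ev c (k % m))⁻¹ * δ * (t ^ (k' / m) * pos ev c (k' % m)) := by
        group

/-- Adding rays. -/
theorem ray [Finite A] (ev : A → G) (T : Language A) (hT : Tree ev T) (Y : G → Prop)
    (hY : Reg ev T Y) (c : ℕ → A) (m : ℕ) (hm : 0 < m) (hc : ∀ i, c (i + m) = c i)
    (hYS : ∀ y, Y y → Im ev T y)
    (hexit : ∀ h : G, ∃ C : ℕ, ∀ y, Y y → ∀ i, Im ev T (y * pos ev c i * h) → i ≤ C)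
    (hdisj : ∀ y y' i i', Y y → Y y' → y * pos ev c i = y' * pos ev c i' → y = y' ∧ i = i')
    (hpar : ∀ h : G, ∃ (D : Set G) (C : ℕ), D.Finite ∧ ∀ y y' i i', Y y → Y y' →
      y * pos ev c i * h = y' * pos ev c i' → y⁻¹ * y' ∈ D ∧ i ≤ i' + C ∧ i' ≤ i + C)
    (hcomm : ∀ y y', Y y → Y y' → Commute (y⁻¹ * y') (pos ev c m)) :
    ∃ T' : Language A, Tree ev T' ∧ (∀ w ∈ T, w ∈ T') ∧
      (∀ w ∈ T', w ∈ T ∨ ∃ y i, Y y ∧ value ev w = y * pos ev c i) ∧
      ∃ C : ℕ, ∀ y i, Y y → C < i → Im ev T' (y * pos ev c i) := by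
  classical
  obtain ⟨C0, hC0⟩ := hexit 1
  have hC0' : ∀ y, Y y → ∀ i, C0 < i → ¬ Im ev T (y * pos ev c i) := by
    intro y hy i hi him
    have := hC0 y hy i (by rwa [mul_one])
    omega
  set Fresh : ℕ → G → Prop := fun l x => Y (x * (pos ev c l)⁻¹) ∧
    ∀ i : Fin (C0 + 1), l < i → ¬ Im ev T (x * ((pos ev c l)⁻¹ * pos ev c i)) with hFresh
  have hFreg : ∀ l, Reg ev T (Fresh l) := by
    intro l
    have h1 := Reg.bool (ev := ev) hT.regular (ι := Option (Fin (C0 + 1)))
      (fun z g => match z with
        | none => Y (g * (pos ev c l)⁻¹)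
        | some i => Im ev T (g * ((pos ev c l)⁻¹ * pos ev c i)))
      (by
        rintro (_ | i)
        · exact hY.shift _
        · exact (Reg_Im ev T hT.mult).shift _)
      (fun p => p none ∧ ∀ i : Fin (C0 + 1), l < i → ¬ p (some i))
    exact h1
  have hfr : ∀ l x, Fresh l x → Y (x * (pos ev c l)⁻¹) ∧
      ∀ i, l < i → ¬ Im ev T (x * (pos ev c l)⁻¹ * pos ev c i) := by
    rintro l x ⟨h1, h2⟩
    refine ⟨h1, ?_⟩
    intro i hi
    by_cases hiC : i ≤ C0
    · have := h2 ⟨i, by omega⟩ hi
      rwa [← mul_assoc] at this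
    · exact hC0' _ h1 i (by omega)
  set T' : Language A := {v | v ∈ T ∨ ∃ l : Fin (C0 + 1), ∃ n, ∃ w ∈ T,
    Fresh l (value ev w) ∧ v = w ++ seg c l n} with hT'
  have hval : ∀ (w : List A) (l n : ℕ), value ev (w ++ seg c l n) =
      value ev w * (pos ev c l)⁻¹ * pos ev c (l + n) := by
    intro w l n
    rw [value_append, pos_add]
    group
  have hreg : T'.IsRegular := by
    refine isRegular_bool (ι := Option (Fin (C0 + 1)))
      (fun z => match z with
        | none => T
        | some l => {v | ∃ w ∈ ({w | w ∈ T ∧ Fresh l (value ev w * 1)} : Language A),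
            ∃ n, v = w ++ seg c l n}) ?_ (fun p => ∃ i, p i) T' ?_
    · rintro (_ | l)
      · exact hT.regular
      · exact isRegular_tail (hFreg l 1) c m hm hc l _ (fun v => Iff.rfl)
    · intro v
      constructor
      · rintro (hv | ⟨l, n, w, hw, hf, rfl⟩)
        · exact ⟨none, hv⟩
        · exact ⟨some l, w, ⟨hw, by rwa [mul_one]⟩, n, rfl⟩
      · rintro ⟨_ | l, hv⟩
        · exact Or.inl hv
        · obtain ⟨w, ⟨hw, hf⟩, n, rfl⟩ := hv
          rw [mul_one] at hf
          exact Or.inr ⟨l, n, w, hw, hf, rfl⟩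
  have hclosed : PrefixClosed T' := by
    rintro u v hv huv
    rcases hv with hv | ⟨l, n, w, hw, hf, rfl⟩
    · exact Or.inl (hT.closed u v hv huv)
    · rw [List.prefix_iff_eq_take.1 huv, List.take_append]
      by_cases hk : u.length ≤ w.length
      · left
        rw [Nat.sub_eq_zero_of_le hk, List.take_zero, List.append_nil]
        exact hT.closed _ w hw (List.take_prefix _ _)
      · right
        rw [List.take_of_length_le (by omega), take_seg]
        exact ⟨l, _, w, hw, hf, rfl⟩
  -- a word of `T` and a ray word with the same value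
  have hmix : ∀ (w0 : List A) (l : Fin (C0 + 1)) (n : ℕ) (w : List A), w0 ∈ T → w ∈ T →
      Fresh l (value ev w) → value ev w0 = value ev (w ++ seg c l n) → w0 = w ++ seg c l n := by
    intro w0 l n w hw0 hw hf hv
    rcases Nat.eq_zero_or_pos n with rfl | hn
    · rw [seg_zero, List.append_nil] at hv ⊢
      exact hT.inj w0 hw0 w hw hv
    · exfalso
      rw [hval] at hv
      exact (hfr l _ hf).2 (l + n) (by omega) ⟨w0, hw0, hv⟩
  have hinj : ∀ u ∈ T', ∀ v ∈ T', value ev u = value ev v → u = v := by
    rintro u (hu | ⟨l, n, w, hw, hf, rfl⟩) v (hv | ⟨l', n', w', hw', hf', rfl⟩) huv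
    · exact hT.inj u hu v hv huv
    · exact hmix u l' n' w' hu hw' hf' huv
    · exact (hmix v l n w hv hw hf huv.symm).symm
    · rw [hval, hval] at huv
      obtain ⟨hy, hi⟩ := hdisj _ _ _ _ (hfr l _ hf).1 (hfr l' _ hf').1 huv
      have hll : (l : ℕ) = l' := by
        rcases lt_trichotomy (l : ℕ) (l' : ℕ) with h | h | h
        · exfalso
          refine (hfr l _ hf).2 l' h ?_
          rw [hy]
          exact ⟨w', hw', by group⟩
        · exact h
        · exfalso
          refine (hfr l' _ hf').2 l h ?_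
          rw [← hy]
          exact ⟨w, hw, by group⟩
      have hnn : n = n' := by omega
      rw [hll] at hy
      have hww : w = w' := hT.inj w hw w' hw' (mul_right_cancel hy)
      rw [hww, hll, hnn]
  have hft : ∀ h : G, FT ev T' h := by
    intro h
    obtain ⟨D, C, hD, hDC⟩ := hpar h
    obtain ⟨C1, hC1⟩ := hexit h
    obtain ⟨C2, hC2⟩ := hexit h⁻¹
    -- short tails
    obtain ⟨D1, hD1, hD1'⟩ := FT_tails ev T hT.ft (C1 + C2) h
    -- the words before the rays
    have : Finite D := hD
    set X : Set G := Set.range (fun p : Fin (C0 + 1) × Fin (C0 + 1) × D =>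
      (pos ev c p.1)⁻¹ * p.2.2 * pos ev c p.2.1) with hX
    have hXfin : X.Finite := Set.finite_range _
    choose FD hFD hFD' using hT.ft
    set D2 : Set G := ⋃ x ∈ X, FD x with hD2
    have hD2fin : D2.Finite := hXfin.biUnion (fun x _ => hFD x)
    set D2' : Set G := (fun x => x⁻¹) '' D2 with hD2'
    have hD2'fin : D2'.Finite := hD2fin.image _
    set C3 : ℕ := D2.ncard + D2'.ncard with hC3
    obtain ⟨D3, hD3, hD3'⟩ := pos_par ev c m hm hc D hD (C0 + C3 + C)
    -- short words
    set Z : Set G := (value ev) '' {z : List A | z.length ≤ C3} with hZ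
    have hZfin : Z.Finite := (List.finite_length_le A C3).image _
    refine ⟨D1 ∪ (D3 ∪ (Set.image2 (fun x y => x * y) D2 Z ∪
      Set.image2 (fun x y => x⁻¹ * y) Z D2)), hD1.union (hD3.union
      ((hD2fin.image2 _ hZfin).union (hZfin.image2 _ hD2fin))), ?_⟩
    rintro u (hu | ⟨l, n, w, hw, hf, rfl⟩) v (hv | ⟨l', n', w', hw', hf', rfl⟩) huv i
    · left
      have := hD1' u hu v hv [] [] (by simp) (by simp) (by simpa using huv) i
      simpa using this
    · left
      have hn' : n' ≤ C1 + C2 := by
        have h1 : Im ev T (value ev w' * (pos ev c l')⁻¹ * pos ev c (l' + n') * h⁻¹) := by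
          refine ⟨u, hu, ?_⟩
          rw [← hval, ← huv]
          group
        have h2 := hC2 _ (hfr l' _ hf').1 _ h1
        omega
      have := hD1' u hu w' hw' [] (seg c l' n') (by simp) (by simpa using hn')
        (by simpa using huv) i
      simpa using this
    · left
      have hn : n ≤ C1 + C2 := by
        have h1 : Im ev T (value ev w * (pos ev c l)⁻¹ * pos ev c (l + n) * h) := by
          refine ⟨v, hv, ?_⟩
          rw [← hval, huv]
        have h2 := hC1 _ (hfr l _ hf).1 _ h1
        omega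
      have := hD1' w hw v hv (seg c l n) [] (by simpa using hn) (by simp)
        (by simpa using huv) i
      simpa using this
    · right
      rw [hval, hval] at huv
      obtain ⟨hδ, hi1, hi2⟩ := hDC _ _ _ _ (hfr l _ hf).1 (hfr l' _ hf').1 huv
      have hcm := hcomm _ _ (hfr l _ hf).1 (hfr l' _ hf').1
      set δ := (value ev w * (pos ev c l)⁻¹)⁻¹ * (value ev w' * (pos ev c l')⁻¹) with hδdef
      have hx : value ev w * ((pos ev c l)⁻¹ * δ * pos ev c l') = value ev w' := by
        rw [hδdef]
        group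
      have hxX : (pos ev c l)⁻¹ * δ * pos ev c l' ∈ X := ⟨(l, l', ⟨δ, hδ⟩), rfl⟩
      have hww : ∀ j, (value ev (w.take j))⁻¹ * value ev (w'.take j) ∈ D2 := fun j =>
        Set.mem_biUnion hxX (hFD' _ w hw w' hw' hx j)
      have hlen1 := length_le_of_ft ev T hT D2 hD2fin w w' hw' hww
      have hlen2 := length_le_of_ft ev T hT D2' hD2'fin w' w hw (by
        intro j
        exact ⟨_, hww j, by simp⟩)
      rw [List.take_append, List.take_append, take_seg, take_seg, value_append, value_append]
      by_cases h1 : i ≤ w.length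
      · right
        left
        rw [Nat.sub_eq_zero_of_le h1, Nat.zero_min, seg_zero]
        refine ⟨_, hww i, _, ⟨seg c l' (min (i - w'.length) n'), ?_, rfl⟩, ?_⟩
        · change (seg c l' (min (i - w'.length) n')).length ≤ C3
          rw [length_seg]
          omega
        · simp only [value, List.map_nil, List.prod_nil, mul_one]
          group
      · by_cases h2 : i ≤ w'.length
        · right
          right
          rw [Nat.sub_eq_zero_of_le h2, Nat.zero_min, seg_zero]
          refine ⟨_, ⟨seg c l (min (i - w.length) n), ?_, rfl⟩, _, hww i, ?_⟩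
          · change (seg c l (min (i - w.length) n)).length ≤ C3
            rw [length_seg]
            omega
          · simp only [value, List.map_nil, List.prod_nil, mul_one]
            group
        · left
          rw [List.take_of_length_le (by omega), List.take_of_length_le (by omega)]
          have h3 := hD3' δ hδ hcm (l + min (i - w.length) n) (l' + min (i - w'.length) n')
            (by omega) (by omega)
          have h4 : (pos ev c (l + min (i - w.length) n))⁻¹ * δ *
              pos ev c (l' + min (i - w'.length) n') =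
              (value ev w * value ev (seg c l (min (i - w.length) n)))⁻¹ *
              (value ev w' * value ev (seg c l' (min (i - w'.length) n'))) := by
            rw [pos_add, pos_add, hδdef]
            group
          rwa [h4] at h3
  refine ⟨T', ⟨hreg, hclosed, hinj, hft⟩, fun w hw => Or.inl hw, ?_, C0, ?_⟩
  · rintro v (hv | ⟨l, n, w, hw, hf, rfl⟩)
    · exact Or.inl hv
    · exact Or.inr ⟨_, l + n, (hfr l _ hf).1, hval w l n⟩
  · intro y i hy hi
    set l := Nat.findGreatest (fun j => Im ev T (y * pos ev c j)) C0 with hl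
    have hl0 : Im ev T (y * pos ev c l) :=
      Nat.findGreatest_spec (P := fun j => Im ev T (y * pos ev c j)) (Nat.zero_le C0)
        (by simpa using hYS y hy)
    have hlC : l ≤ C0 := Nat.findGreatest_le C0
    obtain ⟨w, hw, hwv⟩ := hl0
    refine ⟨w ++ seg c l (i - l), Or.inr ⟨⟨l, by omega⟩, i - l, w, hw, ⟨?_, ?_⟩, rfl⟩, ?_⟩
    · rw [hwv]
      simpa using hy
    · intro j hj him
      rw [hwv] at him
      have h1 : ¬ Im ev T (y * pos ev c j) :=
        Nat.findGreatest_is_greatest (P := fun j => Im ev T (y * pos ev c j)) hj (by omega)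
      apply h1
      have : y * pos ev c l * ((pos ev c l)⁻¹ * pos ev c j) = y * pos ev c j := by group
      rwa [this] at him
    · rw [hval, hwv]
      have : l + (i - l) = i := by omega
      rw [this]
      group

end Pool.Agent.H47.VA
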