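import Mathlib.GroupTheory.ResiduallyFinite
import Mathlib.GroupTheory.FiniteAbelian.Basic
import Mathlib.GroupTheory.Schreier

/-!
# Separation in finitely generated abelian normal subgroups of finite index
-/

namespace Pool.Agent.H47.VA

universe u

theorem rf_of_fg (N : Type u) [CommGroup N] [Group.FG N] : Group.ResiduallyFinite N := by
  obtain ⟨ι, j, hι, hj, p, hp, e, ⟨φ⟩⟩ := CommGroup.equiv_free_prod_prod_multiplicative_zmod N
  rw [Group.residuallyFinite_iff_exists_finiteIndex]
  intro g hg
  have h1 : φ g ≠ 1 := by simpa using hg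
  by_cases h2 : (φ g).1 = 1
  · -- the finite part
    have h3 : (φ g).2 ≠ 1 := fun h => h1 (Prod.ext h2 h)
    have hfin : ∀ i, NeZero (p i ^ e i) := fun i => ⟨(pow_pos (hp i).pos _).ne'⟩
    have : ∀ i, Finite (Multiplicative (ZMod (p i ^ e i))) := fun i =>
      Finite.of_equiv _ Multiplicative.ofAdd
    set f : N →* ((i : ι) → Multiplicative (ZMod (p i ^ e i))) :=
      (MonoidHom.snd _ _).comp φ.toMonoidHom with hf
    refine ⟨f.ker, Subgroup.finiteIndex_ker f, ?_⟩
    rw [MonoidHom.mem_ker]
    exact h3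
  · -- some integer coordinate
    obtain ⟨i, hi⟩ : ∃ i, (φ g).1 i ≠ 1 := by
      by_contra hcon
      push Not at hcon
      exact h2 (funext hcon)
    set x : ℤ := Multiplicative.toAdd ((φ g).1 i) with hx
    have hx0 : x ≠ 0 := fun h => hi (by rw [← ofAdd_toAdd ((φ g).1 i), ← hx, h]; rfl)
    have : NeZero (x.natAbs + 1) := ⟨by omega⟩
    set f : N →* Multiplicative (ZMod (x.natAbs + 1)) :=
      (AddMonoidHom.toMultiplicative (Int.castAddHom (ZMod (x.natAbs + 1)))).comp
        ((Pi.evalMonoidHom _ i).comp ((MonoidHom.fst _ _).comp φ.toMonoidHom)) with hf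
    have : Finite (Multiplicative (ZMod (x.natAbs + 1))) := Finite.of_equiv _ Multiplicative.ofAdd
    refine ⟨f.ker, Subgroup.finiteIndex_ker f, ?_⟩
    rw [MonoidHom.mem_ker]
    intro hz
    have h3 : ((x : ℤ) : ZMod (x.natAbs + 1)) = 0 := hz
    rw [ZMod.intCast_zmod_eq_zero_iff_dvd] at h3
    have h4 := Int.le_of_dvd (abs_pos.2 hx0) ((dvd_abs _ _).2 h3)
    rw [Int.abs_eq_natAbs] at h4
    push_cast at h4
    omega

theorem exists_sep {G : Type u} [Group G] [Group.FG G] (N : Subgroup G) [N.FiniteIndex]
    (hab : ∀ x ∈ N, ∀ y ∈ N, x * y = y * x) (E : Set G) (hE : E.Finite) :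
    ∃ L : Subgroup G, L.Normal ∧ L.FiniteIndex ∧ L ≤ N ∧ ∀ e ∈ E, e ∈ L → e = 1 := by
  let _ : CommGroup N := { (inferInstance : Group N) with
    mul_comm := fun x y => Subtype.ext (hab x x.2 y y.2) }
  have hfg : Group.FG N := Subgroup.fg_of_index_ne_zero N
  have := rf_of_fg N
  induction E, hE using Set.Finite.induction_on with
  | empty =>
    refine ⟨N.normalCore, inferInstance, inferInstance, N.normalCore_le, ?_⟩
    intro e he
    exact he.elim
  | @insert a S ha hS ih =>
    obtain ⟨L, hL1, hL2, hL3, hL4⟩ := ih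
    by_cases haN : a ∈ N ∧ a ≠ 1
    · obtain ⟨H, hH⟩ := Group.exists_finiteIndexNormalSubgroup_notMem (⟨a, haN.1⟩ : N)
        (fun h => haN.2 (congrArg Subtype.val h))
      set H' : Subgroup G := (H.toSubgroup).map N.subtype with hH'
      have hf : H'.FiniteIndex := by
        have hH2 : H.toSubgroup.FiniteIndex := inferInstance
        constructor
        rw [hH', Subgroup.index_map_subtype]
        exact mul_ne_zero hH2.index_ne_zero Subgroup.FiniteIndex.index_ne_zero
      refine ⟨(L ⊓ H').normalCore, inferInstance, inferInstance,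
        (Subgroup.normalCore_le _).trans (inf_le_left.trans hL3), ?_⟩
      intro e he heL
      have h1 := Subgroup.normalCore_le _ heL
      rcases he with rfl | he
      · exfalso
        obtain ⟨y, hy, hye⟩ := h1.2
        apply hH
        have : y = ⟨e, haN.1⟩ := Subtype.ext hye
        rw [← this]
        exact hy
      · exact hL4 e he h1.1
    · refine ⟨L, hL1, hL2, hL3, ?_⟩
      intro e he heL
      rcases he with rfl | he
      · by_contra hne
        exact haN ⟨hL3 heL, hne⟩
      · exact hL4 e he heL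

end Pool.Agent.H47.VA
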