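import Pool.Agent.H47.VA.Ray
import Pool.Agent.H47.VA.Path
import Pool.Agent.H47.VA.Sep

/-!
# Adding one direction of an abelian normal subgroup
-/

namespace Pool.Agent.H47.VA

open Pool.Agent.H47.CD

universe u v w

variable {G : Type u} [Group G] {A : Type v}

/-- `g` is at level `k` in the direction `t` over `M`, up to the errors in `F` -/
def Lev (M : Subgroup G) (t : G) (F : Set G) (k : ℤ) (g : G) : Prop :=
  ∃ μ ∈ M, ∃ f ∈ F, g = μ * t ^ k * f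

theorem Lev.mono {M : Subgroup G} {t : G} {F F' : Set G} (h : F ⊆ F') {k : ℤ} {g : G}
    (hg : Lev M t F k g) : Lev M t F' k g := by
  obtain ⟨μ, hμ, f, hf, rfl⟩ := hg
  exact ⟨μ, hμ, f, h hf, rfl⟩

theorem Lev.neg {M : Subgroup G} {t : G} {F : Set G} {k : ℤ} {g : G}
    (hg : Lev M t F k g) : Lev M t⁻¹ F (-k) g := by
  obtain ⟨μ, hμ, f, hf, rfl⟩ := hg
  exact ⟨μ, hμ, f, hf, by rw [inv_zpow, zpow_neg, inv_inv]⟩

theorem bdd (M : Subgroup G) (t : G) (hind : ∀ k : ℤ, t ^ k ∈ M → k = 0) (E : Set G)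
    (hE : E.Finite) : ∃ B : ℕ, ∀ ν ∈ M, ∀ j : ℤ, ν * t ^ j ∈ E → j.natAbs ≤ B := by
  have h1 : Set.Finite {j : ℤ | ∃ ν ∈ M, ν * t ^ j ∈ E} := by
    have h2 : {j : ℤ | ∃ ν ∈ M, ν * t ^ j ∈ E} ⊆ ⋃ e ∈ E, {j : ℤ | ∃ ν ∈ M, ν * t ^ j = e} := by
      rintro j ⟨ν, hν, h⟩
      exact Set.mem_biUnion h ⟨ν, hν, rfl⟩
    refine (hE.biUnion (fun e _ => Set.Subsingleton.finite ?_)).subset h2
    rintro j ⟨ν, hν, h3⟩ j' ⟨ν', hν', h4⟩
    have h5 : t ^ (j - j') ∈ M := by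
      have h6 : t ^ (j - j') = ν⁻¹ * ν' := by
        rw [zpow_sub, mul_inv_eq_iff_eq_mul, mul_assoc, h4, ← h3]
        group
      rw [h6]
      exact M.mul_mem (M.inv_mem hν) hν'
    have := hind _ h5
    omega
  obtain ⟨B, hB⟩ := (h1.image Int.natAbs).bddAbove
  exact ⟨B, fun ν hν j hj => hB ⟨j, ⟨ν, hν, hj⟩, rfl⟩⟩

theorem lev_bound (N M : Subgroup G) (hab : ∀ x ∈ N, ∀ y ∈ N, x * y = y * x) (hMN : M ≤ N)
    (t : G) (ht : t ∈ N) (hind : ∀ k : ℤ, t ^ k ∈ M → k = 0) (F F' : Set G) (hF : F.Finite)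
    (hF' : F'.Finite) (h : G) : ∃ B : ℕ, ∀ g k k', Lev M t F k g → Lev M t F' k' (g * h) →
      (k - k').natAbs ≤ B := by
  obtain ⟨B, hB⟩ := bdd M t hind (Set.image2 (fun f f' => f' * h⁻¹ * f⁻¹) F F')
    (hF.image2 _ hF')
  refine ⟨B, ?_⟩
  rintro g k k' ⟨μ, hμ, f, hf, rfl⟩ ⟨μ', hμ', f', hf', h1⟩
  refine hB (μ'⁻¹ * μ) (M.mul_mem (M.inv_mem hμ') hμ) _ ⟨f, hf, f', hf', ?_⟩
  simp only
  have hc : (μ'⁻¹ * μ) * t ^ (-k') = t ^ (-k') * (μ'⁻¹ * μ) :=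
    hab _ (hMN (M.mul_mem (M.inv_mem hμ') hμ)) _ (N.zpow_mem ht _)
  have h2 : f' = (μ' * t ^ k')⁻¹ * (μ * t ^ k * f * h) := by
    rw [h1]
    group
  rw [h2]
  calc (μ' * t ^ k')⁻¹ * (μ * t ^ k * f * h) * h⁻¹ * f⁻¹
      = t ^ (-k') * (μ'⁻¹ * μ) * t ^ k := by group
    _ = (μ'⁻¹ * μ) * t ^ (-k') * t ^ k := by rw [hc]
    _ = μ'⁻¹ * μ * t ^ (k - k') := by
        rw [mul_assoc, ← zpow_add]
        congr 2
        ring

/-- the context: an abelian normal subgroup, a subgroup `M`, an independent direction `t`, and a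
self-avoiding periodic path in the direction of `t`, seen from `q` -/
structure Ctx (ev : A → G) (N M : Subgroup G) (t : G) (c : ℕ → A) (m d : ℕ) (q : G) : Prop where
  ab : ∀ x ∈ N, ∀ y ∈ N, x * y = y * x
  le : M ≤ N
  mem : t ∈ N
  ind : ∀ k : ℤ, t ^ k ∈ M → k = 0
  mpos : 0 < m
  dpos : 0 < d
  per : ∀ i, c (i + m) = c i
  inj : Function.Injective (pos ev c)
  dir : pos ev c m = q⁻¹ * t ^ d * q

theorem pos_dir {ev : A → G} {N M : Subgroup G} {t : G} {c : ℕ → A} {m d : ℕ} {q : G}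
    (h : Ctx ev N M t c m d q) (a : ℕ) : pos ev c m ^ a = q⁻¹ * t ^ (d * a) * q := by
  rw [h.dir]
  induction a with
  | zero => simp
  | succ a ih =>
    rw [pow_succ, ih, Nat.mul_succ, pow_add]
    group

theorem ray_lev {ev : A → G} {N M : Subgroup G} {t : G} {c : ℕ → A} {m d : ℕ} {q : G}
    (h : Ctx ev N M t c m d q) (F : Set G) (y μ f : G) (hμ : μ ∈ M) (hf : f ∈ F)
    (hy : y = μ * f) (hyN : y * q⁻¹ ∈ N) (i : ℕ) :
    Lev M t (Set.image2 (fun f r => f * r) F (Set.range (fun r : Fin m => pos ev c r)))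
      ((d * (i / m) : ℕ) : ℤ) (y * pos ev c i) := by
  refine ⟨μ, hμ, _, ⟨f, hf, _, ⟨⟨i % m, Nat.mod_lt _ h.mpos⟩, rfl⟩, rfl⟩, ?_⟩
  have h1 : pos ev c i = pos ev c m ^ (i / m) * pos ev c (i % m) := by
    rw [← pos_mul ev c m h.per, Nat.div_add_mod]
  rw [h1, pos_dir h]
  have h2 : f * q⁻¹ ∈ N := by
    have : f * q⁻¹ = μ⁻¹ * (y * q⁻¹) := by
      rw [hy]
      group
    rw [this]
    exact N.mul_mem (N.inv_mem (h.le hμ)) hyN
  have h3 : (f * q⁻¹) * t ^ (d * (i / m)) = t ^ (d * (i / m)) * (f * q⁻¹) :=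
    h.ab _ h2 _ (N.pow_mem h.mem _)
  rw [hy, zpow_natCast]
  calc μ * f * (q⁻¹ * t ^ (d * (i / m)) * q * pos ev c (i % m))
      = μ * ((f * q⁻¹) * t ^ (d * (i / m))) * q * pos ev c (i % m) := by group
    _ = μ * (t ^ (d * (i / m)) * (f * q⁻¹)) * q * pos ev c (i % m) := by rw [h3]
    _ = μ * t ^ (d * (i / m)) * (f * pos ev c (i % m)) := by group

/-- Rays in the direction `t` over the tree `T1`, added to the bigger tree `T2` all of whose
elements are at levels at most `0`. -/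
theorem addRays [Finite A] (ev : A → G) {N M : Subgroup G} [hNn : N.Normal] {t : G} {c : ℕ → A}
    {m d : ℕ} {q : G} (hx : Ctx ev N M t c m d q)
    (hsep : ∀ E : Set G, E.Finite →
      ∃ L : Subgroup G, L.Normal ∧ L.FiniteIndex ∧ L ≤ N ∧ ∀ e ∈ E, e ∈ L → e = 1)
    (T1 T2 : Language A) (h1 : Tree ev T1) (h2 : Tree ev T2) (h12 : ∀ w ∈ T1, w ∈ T2)
    (F1 F2 : Set G) (hF1 : F1.Finite) (hF2 : F2.Finite)
    (hT1 : ∀ g, Im ev T1 g → ∃ μ ∈ M, ∃ f ∈ F1, g = μ * f)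
    (hT2 : ∀ g, Im ev T2 g → ∃ k : ℤ, k ≤ 0 ∧ Lev M t F2 k g)
    (hq : ∀ μ ∈ M, Im ev T1 (μ * q)) :
    ∃ T3 : Language A, Tree ev T3 ∧ (∀ w ∈ T2, w ∈ T3) ∧
      (∃ F3 : Set G, F3.Finite ∧ ∀ g, Im ev T3 g → Im ev T2 g ∨
        ∃ k : ℤ, 0 ≤ k ∧ Lev M t F3 k g) ∧
      ∃ F4 : Set G, F4.Finite ∧ ∀ μ ∈ M, ∀ k : ℕ, ∃ s, Im ev T3 s ∧ ∃ f ∈ F4,
        μ * t ^ k = s * f := by
  classical
  have him12 : ∀ g, Im ev T1 g → Im ev T2 g := by
    rintro g ⟨w, hw, rfl⟩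
    exact ⟨w, h12 w hw, rfl⟩
  set P : Set G := Set.range (fun r : Fin m => pos ev c r) with hP
  have hPfin : P.Finite := Set.finite_range _
  set F1' : Set G := Set.image2 (fun f r => f * r) F1 P with hF1'
  have hF1'fin : F1'.Finite := hF1.image2 _ hPfin
  have hlev : ∀ y, Im ev T1 y → y * q⁻¹ ∈ N → ∀ i,
      Lev M t F1' ((d * (i / m) : ℕ) : ℤ) (y * pos ev c i) := by
    intro y hy hyN i
    obtain ⟨μ, hμ, f, hf, hyf⟩ := hT1 y hy
    exact ray_lev hx F1 y μ f hμ hf hyf hyN i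
  set tq := pos ev c m with htq
  have htqN : tq ∈ N := by
    rw [htq, hx.dir]
    have := hNn.conj_mem _ (N.pow_mem hx.mem d) q⁻¹
    simpa using this
  have hyyN : ∀ y y', y * q⁻¹ ∈ N → y' * q⁻¹ ∈ N → y⁻¹ * y' ∈ N := by
    intro y y' hy hy'
    have h3 := hNn.conj_mem _ (N.mul_mem (N.inv_mem hy) hy') q⁻¹
    have h4 : q⁻¹ * ((y * q⁻¹)⁻¹ * (y' * q⁻¹)) * q⁻¹⁻¹ = y⁻¹ * y' := by group
    rwa [h4] at h3
  have hdiv : ∀ a b B : ℕ, (((d * a : ℕ) : ℤ) - ((d * b : ℕ) : ℤ)).natAbs ≤ B →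
      a ≤ b + B ∧ b ≤ a + B := by
    intro a b B hB
    have hd := hx.dpos
    constructor
    · by_contra hcon
      push Not at hcon
      have h3 : d * (b + B + 1) ≤ d * a := Nat.mul_le_mul_left d hcon
      have h4 : B + 1 ≤ d * (B + 1) := Nat.le_mul_of_pos_left _ hd
      have h5 : d * (b + B + 1) = d * b + d * (B + 1) := by ring
      omega
    · by_contra hcon
      push Not at hcon
      have h3 : d * (a + B + 1) ≤ d * b := Nat.mul_le_mul_left d hcon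
      have h4 : B + 1 ≤ d * (B + 1) := Nat.le_mul_of_pos_left _ hd
      have h5 : d * (a + B + 1) = d * a + d * (B + 1) := by ring
      omega
  have hidx : ∀ i i' B : ℕ, i / m ≤ i' / m + B → i ≤ i' + m * (B + 1) := by
    intro i i' B hB
    have h3 := Nat.div_add_mod i m
    have h4 := Nat.div_add_mod i' m
    have h5 := Nat.mod_lt i hx.mpos
    have h6 : m * (i / m) ≤ m * (i' / m + B) := Nat.mul_le_mul_left m hB
    have h7 : m * (i' / m + B) = m * (i' / m) + m * B := by ring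
    have h8 : m * (B + 1) = m * B + m := by ring
    omega
  -- parallel rays
  have hpar0 : ∀ h : G, ∃ (D : Set G) (C : ℕ), D.Finite ∧ ∀ y y' i i',
      Im ev T1 y → y * q⁻¹ ∈ N → Im ev T1 y' → y' * q⁻¹ ∈ N →
      y * pos ev c i * h = y' * pos ev c i' → y⁻¹ * y' ∈ D ∧ i ≤ i' + C ∧ i' ≤ i + C := by
    intro h
    obtain ⟨B, hB⟩ := lev_bound N M hx.ab hx.le t hx.mem hx.ind F1' F1' hF1'fin hF1'fin h
    refine ⟨Set.range (fun p : Fin m × Fin m × Fin (2 * B + 1) =>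
      pos ev c p.1 * h * (pos ev c p.2.1)⁻¹ * tq ^ ((p.2.2 : ℤ) - B)), m * (B + 1),
      Set.finite_range _, ?_⟩
    intro y y' i i' hy hyN hy' hy'N he
    have h3 := hB _ _ _ (hlev y hy hyN i) (he ▸ hlev y' hy' hy'N i')
    obtain ⟨h4, h5⟩ := hdiv _ _ _ h3
    refine ⟨?_, hidx _ _ _ h4, hidx _ _ _ h5⟩
    refine ⟨(⟨i % m, Nat.mod_lt _ hx.mpos⟩, ⟨i' % m, Nat.mod_lt _ hx.mpos⟩,
      ⟨i / m + B - i' / m, by omega⟩), ?_⟩
    simp only
    have h6 : ((i / m + B - i' / m : ℕ) : ℤ) - B = (i / m : ℕ) - (i' / m : ℕ) := by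
      push_cast [Nat.cast_sub h5]
      ring
    rw [h6]
    have e1 : pos ev c i = tq ^ (i / m) * pos ev c (i % m) := by
      rw [htq, ← pos_mul ev c m hx.per, Nat.div_add_mod]
    have e2 : pos ev c i' = tq ^ (i' / m) * pos ev c (i' % m) := by
      rw [htq, ← pos_mul ev c m hx.per, Nat.div_add_mod]
    set z := pos ev c (i % m) * h * (pos ev c (i' % m))⁻¹ with hz
    have h7 : y⁻¹ * y' = tq ^ (i / m) * z * (tq ^ (i' / m))⁻¹ := by
      have h8 : y' = y * pos ev c i * h * (pos ev c i')⁻¹ := by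
        rw [he]
        group
      rw [h8, e1, e2, hz]
      group
    have hzN : z ∈ N := by
      have h8 : z = (tq ^ (i / m))⁻¹ * (y⁻¹ * y') * tq ^ (i' / m) := by
        rw [h7]
        group
      rw [h8]
      exact N.mul_mem (N.mul_mem (N.inv_mem (N.pow_mem htqN _)) (hyyN y y' hyN hy'N))
        (N.pow_mem htqN _)
    rw [h7, hx.ab _ (N.pow_mem htqN _) _ hzN, zpow_sub, zpow_natCast, zpow_natCast]
    exact (mul_assoc z _ _).symm
  obtain ⟨D1, C1, hD1, hDC1⟩ := hpar0 1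
  obtain ⟨L, hLn, hLf, hLN, hL⟩ := hsep ((fun x => q * x * q⁻¹) '' D1) (hD1.image _)
  set Y : G → Prop := fun y => Im ev T1 y ∧ y * q⁻¹ ∈ L with hY
  have hYreg : Reg ev T2 Y := by
    have h3 := Reg.bool (ev := ev) h2.regular (ι := Bool)
      (fun b g => match b with
        | true => Im ev T1 g
        | false => g * q⁻¹ ∈ L)
      (by
        rintro (_ | _)
        · exact (Reg_coset ev T2 h2.regular L).shift q⁻¹
        · exact Reg_Im_sub ev T1 T2 h2 h1.regular h12)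
      (fun p => p true ∧ p false)
    exact h3
  obtain ⟨T3, hT3, h23, hnew, C, hC⟩ := ray ev T2 h2 Y hYreg c m hx.mpos hx.per
    (fun y hy => him12 y hy.1)
    (by
      intro h
      obtain ⟨B, hB⟩ := lev_bound N M hx.ab hx.le t hx.mem hx.ind F1' F2 hF1'fin hF2 h
      refine ⟨m * (B + 1), ?_⟩
      intro y hy i him
      obtain ⟨k, hk, hk'⟩ := hT2 _ him
      have h3 := hB _ _ _ (hlev y hy.1 (hLN hy.2) i) hk'
      have h4 := hdiv (i / m) 0 B (by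
        rw [mul_zero]
        generalize d * (i / m) = X at h3 ⊢
        omega)
      have h5 := hidx i 0 B (by simpa using h4.1)
      omega)
    (by
      intro y y' i i' hy hy' he
      obtain ⟨h3, -, -⟩ := hDC1 y y' i i' hy.1 (hLN hy.2) hy'.1 (hLN hy'.2) (by rwa [mul_one])
      have h4 : q * (y⁻¹ * y') * q⁻¹ ∈ L := by
        have h5 : q * (y⁻¹ * y') * q⁻¹ = (y * q⁻¹)⁻¹ * (y' * q⁻¹) := by group
        rw [h5]
        exact L.mul_mem (L.inv_mem hy.2) hy'.2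
      have h5 := hL _ ⟨_, h3, rfl⟩ h4
      have h6 : y = y' := by
        rw [mul_inv_eq_one, mul_eq_left] at h5
        exact (inv_mul_eq_one.1 h5)
      refine ⟨h6, ?_⟩
      rw [h6] at he
      exact hx.inj (mul_left_cancel he))
    (by
      intro h
      obtain ⟨D, C, hD, hDC⟩ := hpar0 h
      exact ⟨D, C, hD, fun y y' i i' hy hy' he =>
        hDC y y' i i' hy.1 (hLN hy.2) hy'.1 (hLN hy'.2) he⟩)
    (fun y y' hy hy' => hx.ab _ (hyyN y y' (hLN hy.2) (hLN hy'.2)) _ htqN)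
  have him23 : ∀ g, Im ev T2 g → Im ev T3 g := by
    rintro g ⟨w, hw, rfl⟩
    exact ⟨w, h23 w hw, rfl⟩
  refine ⟨T3, hT3, h23, ⟨F1', hF1'fin, ?_⟩, ?_⟩
  · rintro g ⟨w, hw, rfl⟩
    rcases hnew w hw with h3 | ⟨y, i, hy, h3⟩
    · exact Or.inl ⟨w, h3, rfl⟩
    · right
      rw [h3]
      exact ⟨_, by positivity, hlev y hy.1 (hLN hy.2) i⟩
  · -- coverage
    have hfinq : Finite (G ⧸ L) := Subgroup.finite_quotient_of_finiteIndex
    have hrep : ∀ κ : G ⧸ L, ∃ e ∈ M, (∃ μ ∈ M, ((μ : G) : G ⧸ L) = κ) →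
        ((e : G) : G ⧸ L) = κ := by
      intro κ
      by_cases hκ : ∃ μ ∈ M, ((μ : G) : G ⧸ L) = κ
      · obtain ⟨μ, hμ, h3⟩ := hκ
        exact ⟨μ, hμ, fun _ => h3⟩
      · exact ⟨1, M.one_mem, fun h => absurd h hκ⟩
    choose e he he' using hrep
    refine ⟨Set.range (fun p : Fin (C + 1) × (G ⧸ L) × Fin d =>
      (pos ev c p.1 * q⁻¹ * e p.2.1 * t ^ (p.2.2 : ℕ))), Set.finite_range _, ?_⟩
    intro μ hμ k
    set ε := e ((μ : G) : G ⧸ L) with hε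
    have hε1 : ε ∈ M := he _
    have hε2 : ((ε : G) : G ⧸ L) = ((μ : G) : G ⧸ L) := he' _ ⟨μ, hμ, rfl⟩
    set μ0 := μ * ε⁻¹ with hμ0
    have hμ0M : μ0 ∈ M := M.mul_mem hμ (M.inv_mem hε1)
    have hμ0L : μ0 ∈ L := by
      rw [← QuotientGroup.eq_one_iff, hμ0, QuotientGroup.mk_mul, QuotientGroup.mk_inv, hε2,
        mul_inv_cancel]
    have hy : Y (μ0 * q) := ⟨hq μ0 hμ0M, by simpa using hμ0L⟩
    have hk : k = d * (k / d) + k % d := (Nat.div_add_mod k d).symm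
    have hr : k % d < d := Nat.mod_lt _ hx.dpos
    have hεt : ε * t ^ (d * (k / d)) = t ^ (d * (k / d)) * ε :=
      hx.ab _ (hx.le hε1) _ (N.pow_mem hx.mem _)
    have hpt : μ0 * q * pos ev c (m * (k / d)) = μ0 * t ^ (d * (k / d)) * q := by
      have h3 : pos ev c (m * (k / d)) = tq ^ (k / d) := by
        have := pos_mul ev c m hx.per (k / d) 0
        rw [add_zero, pos_zero, mul_one] at this
        exact this
      rw [h3, htq, pos_dir hx]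
      group
    have hmain : μ * t ^ k = μ0 * q * pos ev c (m * (k / d)) * (q⁻¹ * ε * t ^ (k % d)) := by
      rw [hpt]
      conv_lhs => rw [hk, pow_add]
      calc μ * (t ^ (d * (k / d)) * t ^ (k % d))
          = μ0 * (ε * t ^ (d * (k / d))) * t ^ (k % d) := by rw [hμ0]; group
        _ = μ0 * (t ^ (d * (k / d)) * ε) * t ^ (k % d) := by rw [hεt]
        _ = μ0 * t ^ (d * (k / d)) * q * (q⁻¹ * ε * t ^ (k % d)) := by group
    by_cases hbig : C < m * (k / d)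
    · refine ⟨_, hC _ _ hy hbig, q⁻¹ * ε * t ^ (k % d), ?_, hmain⟩
      refine ⟨(⟨0, by omega⟩, ((μ : G) : G ⧸ L), ⟨k % d, hr⟩), ?_⟩
      simp [hε]
    · refine ⟨μ0 * q, him23 _ (him12 _ hy.1), pos ev c (m * (k / d)) * q⁻¹ * ε * t ^ (k % d),
        ?_, ?_⟩
      · exact ⟨(⟨m * (k / d), by omega⟩, ((μ : G) : G ⧸ L), ⟨k % d, hr⟩), rfl⟩
      · rw [hmain]
        group

end Pool.Agent.H47.VA
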